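import Pool.Agent.Q212.PL.Group

/-!
# Under PFA no `ℵ₁`-dense subgroup of the real line is plastic

Proof. Let `G` be a dense subgroup with at most `ℵ₁` elements. By Martin's axiom `G` is a null set,
so that some compact set `K` of positive measure is disjoint from `G`. Let `μ x` be the measure of
the part of `K` up to `x`. This function is non-expansive and has countably many values outside `K`.
Martin's axiom for a countable partial order gives a map `φ` of the set `M` of these values into a
countable subset of `G`, all of whose slopes are between `0` and `1 / 2`, such that for every `γ` in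
`G` there is `m` in `M` with `γ + φ m` outside `K` and `μ (γ + φ m) = m`. For this one has to extend
a finite partial map; one extends it first to a function on the line with slopes between two numbers
in `(0, 1 / 2)`, solves the equation `x - φ (μ x) = γ` and moves the solution out of `K`. The map
`x ↦ x - φ (μ x)` is a non-expansive bijection of `G` onto `G` and not an isometry.
-/

set_option autoImplicit false

open Set Cardinal

namespace Pool.Agent.Results.MP_d907e7_lc.NoPlasticSubgroup

open Pool.Agent.Q212.PL Pool.Agent.W684 Pool.Agent.Helper647.FU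

theorem result :
    (MartinAxiomAleph1 → ∀ G : AddSubgroup ℝ, Dense (G : Set ℝ) → #G ≤ ℵ₁ → ¬ Plastic G) ∧
    (PFA → ∀ G : AddSubgroup ℝ,
      (∀ U : Set ℝ, IsOpen U → U.Nonempty → #((G : Set ℝ) ∩ U : Set ℝ) = ℵ₁) → ¬ Plastic G) := by
  have h1 : MartinAxiomAleph1 → ∀ G : AddSubgroup ℝ, Dense (G : Set ℝ) → #G ≤ ℵ₁ →
      ¬ Plastic G := by
    intro hMA G hd hG hp
    obtain ⟨f, hf1, hf2, hf3⟩ := exists_map hMA G hd hG
    exact hf3 (hp f hf1 hf2)
  refine ⟨h1, fun hPFA G hG => h1 (ma_of_PFA hPFA) G ?_ ?_⟩
  · rw [dense_iff_inter_open]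
    intro U hU hne
    have h2 : #((G : Set ℝ) ∩ U : Set ℝ) ≠ 0 := by
      rw [hG U hU hne]
      exact (aleph0_pos.trans aleph0_lt_aleph_one).ne'
    have h3 : Nonempty ((G : Set ℝ) ∩ U : Set ℝ) := mk_ne_zero_iff.1 h2
    obtain ⟨x, hx⟩ := h3
    exact ⟨x, hx.2, hx.1⟩
  · have h2 := hG univ isOpen_univ univ_nonempty
    rw [inter_univ] at h2
    exact h2.le

end Pool.Agent.Results.MP_d907e7_lc.NoPlasticSubgroup
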