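import Pool.Agent.Q212.PL.Rigid
import Pool.Agent.Q212.PL.Group

/-!
# An `ℵ₁`-dense plastic set of real numbers

In ZFC there is an `ℵ₁`-dense plastic set of real numbers, so that PFA does not imply that no such
set is plastic. Moreover, for every function `ω` with limit `0` at `0` there is an `ℵ₁`-dense set
`A` of real numbers such that every injection of `A` into itself which locally has the modulus of
continuity `ω` is the identity.

Proof. By recursion one constructs sequences `a η`, `η < ω₁`, of natural numbers such that for
`ξ < η` and some `k` the term `a ξ (m + 1)` is for all large `m` the component with number `k` of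
the number `a η m`, decoded in a fixed way; all sequences grow so slowly that the recursion can be
continued. Let `r η` be the sum of the numbers `a η m * u m`, where `u` tends to `0` very fast, and
let `A` consist of numbers `b η = r η + q η` with rational `q η` (for those `η` for which `r η` is
not congruent to an earlier `r ξ` modulo the rational numbers). Let `f` be an injection of `A` into
itself. If `f (b ξ) = b (G ξ)` with `ξ < G ξ` for uncountably many `ξ`, then two of them have the
same data `k`, `q ξ`, `q (G ξ)` and long initial parts; if `m` is the first difference of `a (G ξ)`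
and `a (G ξ')`, then `a ξ` and `a ξ'` agree up to `m`, and the distance of `b ξ` and `b ξ'` is much
smaller than the distance of their images. Hence `G ξ ≤ ξ` for all but countably many `ξ`, and
therefore `G ξ = ξ` for all but countably many `ξ`.
-/

set_option autoImplicit false

open Set Cardinal Filter Topology

namespace Pool.Agent.Results.MP_d907e7_lc.PlasticDenseSet

open Pool.Agent.Q212.PL

theorem result :
    (∃ A : Set ℝ, (∀ U : Set ℝ, IsOpen U → U.Nonempty → #(A ∩ U : Set ℝ) = ℵ₁) ∧ Plastic A) ∧
    ∀ ω : ℝ → ℝ, Tendsto ω (𝓝[>] 0) (𝓝 0) →
      ∃ A : Set ℝ, (∀ U : Set ℝ, IsOpen U → U.Nonempty → #(A ∩ U : Set ℝ) = ℵ₁) ∧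
        ∀ f : A → A, Function.Injective f →
          (∃ t > 0, ∀ x y : A, x ≠ y → dist x y < t → dist (f x) (f y) ≤ ω (dist x y)) →
          ∀ x, f x = x := by
  refine ⟨?_, exists_rigid⟩
  obtain ⟨A, h1, h2⟩ := exists_rigid (fun t => t) (tendsto_id.mono_left nhdsWithin_le_nhds)
  refine ⟨A, h1, fun f hf hf' => ?_⟩
  have h3 := h2 f hf.1 ⟨1, one_pos, fun x y _ _ => hf' x y⟩
  have h4 : f = id := funext h3
  rw [h4]
  exact isometry_id

end Pool.Agent.Results.MP_d907e7_lc.PlasticDenseSet
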